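import Pool.Agent.ESG.All
import Pool.Agent.ESL.Eight
import Pool.Agent.Codim3.Transfer

/-!
Finite quaternionic structures, `-1` arbitrary: elementary type iff strongly linked.
-/

namespace Pool.Agent.H2FIN.Old.StronglyLinkedTheorem

/-- The extension property for the subgroup `U` of `G`: every biadditive map `β : U × G → F_2` with `β (u, v) = 0`
whenever `q (u, v) = 0` is the restriction of a biadditive map `γ : G × G → F_2` with `γ (u, v) = 0` whenever
`q (u, v) = 0`. -/
def Extends (S : QS.QStruct) (U : Subgroup S.G) : Prop :=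
  ∀ β : S.G → S.G → ZMod 2,
    (∀ u ∈ U, ∀ u' ∈ U, ∀ v, β (u * u') v = β u v + β u' v) →
    (∀ u ∈ U, ∀ v v', β u (v * v') = β u v + β u v') →
    (∀ u ∈ U, ∀ v, S.q u v = S.zero → β u v = 0) →
    ∃ γ : S.G → S.G → ZMod 2,
      (∀ u u' v, γ (u * u') v = γ u v + γ u' v) ∧ (∀ u v v', γ u (v * v') = γ u v + γ u v') ∧
      (∀ u v, S.q u v = S.zero → γ u v = 0) ∧ ∀ u ∈ U, ∀ v, γ u v = β u v

/-- (1) A finite quaternionic structure is of elementary type iff it has the extension property for all subgroups
of `G`.
(2) All finite quaternionic structures are of elementary type iff all of them have the extension property for all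
subgroups of order at most `8`.
(3) All finite quaternionic structures with `-1 = 1` are of elementary type iff all of them have the extension
property for all subgroups of order at most `8` and of index more than `8`. -/
theorem result :
    (∀ S : QS.QStruct, Finite S.G → (QS.ElemType S ↔ ∀ U : Subgroup S.G, Extends S U)) ∧
    ((∀ S : QS.QStruct, Finite S.G → QS.ElemType S) ↔
      ∀ S : QS.QStruct, Finite S.G → ∀ U : Subgroup S.G, Nat.card U ≤ 8 → Extends S U) ∧
    ((∀ S : QS.QStruct, Finite S.G → S.neg = 1 → QS.ElemType S) ↔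
      ∀ S : QS.QStruct, Finite S.G → S.neg = 1 → ∀ U : Subgroup S.G, Nat.card U ≤ 8 → 8 < U.index →
        Extends S U) := by
  refine ⟨fun S hf => Pool.Agent.ESG.elemType_iff S hf, Pool.Agent.ESG.conj_iff, ?_, ?_⟩
  · intro H S hf h U _ _
    exact (Pool.Agent.ESG.elemType_iff S hf).1 (H S hf h) U
  · intro H S hf h
    refine (Pool.Agent.ESG.elemType_iff S hf).2 (Pool.Agent.ESL.extProp_of_ext8 ?_ S hf h)
    intro S hf h U hU
    by_cases h8 : U.index ≤ 8
    · intro β b1 b2 b3
      have hfin : Finite S.G := hf
      exact Pool.Agent.Codim3.extend_of_index S h U Subgroup.index_ne_zero_of_finite h8 β b1 b2 b3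
    · exact H S hf h U hU (by omega)

end Pool.Agent.H2FIN.Old.StronglyLinkedTheorem
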